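import Mathlib
import Pool.Agent.Lib.MP_e2feb3_nt.Small

namespace Pool.Agent.Results.MP_e2feb3_nt.ThirdGaps

open Pool.Agent.Lib.MP_e2feb3_nt

/-- The sets of third-order gaps of the down-integers and of the up-integers are both
`{3, 4, 5, 6, 7, 8, 10, 11, 13}`. -/
theorem result : {n | IsDown n}.Infinite ∧ {n | IsUp n}.Infinite ∧
    gapSet IsDown 3 = {3, 4, 5, 6, 7, 8, 10, 11, 13} ∧
    gapSet IsUp 3 = {3, 4, 5, 6, 7, 8, 10, 11, 13} := main

end Pool.Agent.Results.MP_e2feb3_nt.ThirdGaps
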